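import Mathlib
import Pool.Agent.X277.IS.Lattice

/-!
# Small integer solutions of systems of unit and addition equations

For every `x ∈ ℤ^n` there is `y ∈ ℤ^n` with `|y_i| ≤ 2^(n-1)` such that `y_i = 1` whenever `x_i = 1`
and `y_k = y_i + y_j` whenever `x_k = x_i + x_j`.

Outline.  If no `x_i` is `1` take `y = 0`.  Otherwise fix `i0` with `x_{i0} = 1` and write the
conditions as homogeneous ones: the rows are `e_i - e_{i0}` and `(e_i - e_k) + e_j`, which are sums
of two vectors with at most one entry `1`, at most one entry `-1` and zeros elsewhere (network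
vectors).  The lattice `L` of integer points orthogonal to them is a direct summand of `ℤ^n`, of rank
`r ≥ 1`, and the maximal minors of a basis of `L` are bounded by the determinants of matrices with
`n - r` rows of the system and `r` unit vectors, hence by `2^(n-r)`.  Finally, an argument of
Borosh, Flahive, Rubin and Treybig gives a point `y ∈ L` with `y_{i0} = 1` all of whose coordinates
are bounded by the largest absolute value of these minors.
-/

set_option autoImplicit false

namespace Pool.Agent.Results.MP_80f852_al.IntegerBound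

open Pool.Agent.X277.IS Pool.Agent.X329.Net

lemma dot_single {n : ℕ} (i : Fin n) (v : Fin n → ℤ) :
    ∑ j, (Pi.single i (1 : ℤ) : Fin n → ℤ) j * v j = v i := by
  rw [Finset.sum_eq_single i]
  · simp
  · intro j _ hj; simp [hj]
  · simp

lemma dot_add {n : ℕ} (r s v : Fin n → ℤ) :
    ∑ j, (r + s) j * v j = ∑ j, r j * v j + ∑ j, s j * v j := by
  rw [← Finset.sum_add_distrib]
  refine Finset.sum_congr rfl fun i _ => ?_
  rw [Pi.add_apply]; ring

lemma dot_sub {n : ℕ} (r s v : Fin n → ℤ) :
    ∑ j, (r - s) j * v j = ∑ j, r j * v j - ∑ j, s j * v j := by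
  rw [← Finset.sum_sub_distrib]
  refine Finset.sum_congr rfl fun i _ => ?_
  rw [Pi.sub_apply]; ring

/-- For every integer point `x` there is an integer point `y` with coordinates at most `2^(n-1)` in
absolute value which satisfies all the equations `z_i = 1` and `z_i + z_j = z_k` satisfied by `x`. -/
theorem result (n : ℕ) (x : Fin n → ℤ) :
    ∃ y : Fin n → ℤ, (∀ i, |y i| ≤ 2 ^ (n - 1)) ∧ (∀ i, x i = 1 → y i = 1) ∧
      ∀ i j k, x k = x i + x j → y k = y i + y j := by
  by_cases hone : ∃ i0, x i0 = 1
  · obtain ⟨i0, hi0⟩ := hone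
    let R : Set (Fin n → ℤ) :=
      {r | (∃ i j k, x k = x i + x j ∧ r = (Pi.single i 1 - Pi.single k 1) + Pi.single j 1) ∨
        ∃ i, x i = 1 ∧ r = (Pi.single i 1 - Pi.single i0 1) + 0}
    obtain ⟨y, hy, hy0, hyb⟩ := small_point R (by
      rintro r (⟨i, j, k, -, rfl⟩ | ⟨i, -, rfl⟩)
      · exact ⟨_, _, net_sub i k, net_single j, rfl⟩
      · exact ⟨_, _, net_sub i i0, net_zero, rfl⟩) x (by
      rintro r (⟨i, j, k, h, rfl⟩ | ⟨i, h, rfl⟩)
      · rw [dot_add, dot_sub, dot_single, dot_single, dot_single, h]
        ring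
      · rw [add_zero, dot_sub, dot_single, dot_single, h, hi0]
        ring) i0 hi0
    refine ⟨y, hyb, fun i hi => ?_, fun i j k h => ?_⟩
    · have h1 := hy _ (Or.inr ⟨i, hi, rfl⟩)
      rw [add_zero, dot_sub, dot_single, dot_single, hy0] at h1
      linarith
    · have h1 := hy _ (Or.inl ⟨i, j, k, h, rfl⟩)
      rw [dot_add, dot_sub, dot_single, dot_single, dot_single] at h1
      linarith
  · refine ⟨0, fun i => ?_, fun i hi => absurd ⟨i, hi⟩ hone, fun i j k _ => by simp⟩
    simp

end Pool.Agent.Results.MP_80f852_al.IntegerBound
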